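import Pool.Agent.Helper4.MCP.GoalsC

set_option autoImplicit false

namespace Pool.Agent.Helper35.MCP

open Pool.Agent.Helper4.MCP Pool.Agent.Helper26.MCE Pool.Agent.Helper87.MC Finset

theorem sum_cons {G : Type} [Fintype G] (M : ℕ) (F : (Fin (M + 1) → G) → ℝ) :
    ∑ ω : Fin (M + 1) → G, F ω = ∑ x : G, ∑ ω : Fin M → G, F (Fin.cons x ω) := by
  rw [← (Fin.consEquiv (fun _ : Fin (M + 1) => G)).sum_comp, Fintype.sum_prod_type]
  rfl

theorem firMom {G : Type} [Fintype G] (X : G → ℝ) (h0 : ∑ x, X x = 0) (M : ℕ) :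
    ∑ ω : Fin M → G, ∑ v, X (ω v) = 0 := by
  induction M with
  | zero => simp
  | succ M ih =>
    rw [sum_cons]
    simp only [Fin.sum_univ_succ, Fin.cons_zero, Fin.cons_succ, Finset.sum_add_distrib, ih,
      Finset.sum_const, smul_zero, add_zero, ← Finset.smul_sum, h0]

theorem secMom {G : Type} [Fintype G] (X : G → ℝ) (h0 : ∑ x, X x = 0) (C : ℝ)
    (hC : ∑ x, X x ^ 2 ≤ C * Fintype.card G) (M : ℕ) :
    ∑ ω : Fin M → G, (∑ v, X (ω v)) ^ 2 ≤ M * C * (Fintype.card G : ℝ) ^ M := by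
  induction M with
  | zero => simp
  | succ M ih =>
    rw [sum_cons]
    have e : ∀ x : G, ∑ ω : Fin M → G, (∑ v, X ((Fin.cons x ω : Fin (M + 1) → G) v)) ^ 2 =
        (Fintype.card G : ℝ) ^ M * X x ^ 2 + ∑ ω : Fin M → G, (∑ v, X (ω v)) ^ 2 := by
      intro x
      have e1 : ∀ ω : Fin M → G, (∑ v, X ((Fin.cons x ω : Fin (M + 1) → G) v)) ^ 2 =
          X x ^ 2 + 2 * X x * (∑ v, X (ω v)) + (∑ v, X (ω v)) ^ 2 := by
        intro ω
        rw [Fin.sum_univ_succ]
        simp only [Fin.cons_zero, Fin.cons_succ]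
        ring
      simp only [e1, Finset.sum_add_distrib, ← Finset.mul_sum, firMom X h0 M]
      simp
    simp only [e, Finset.sum_add_distrib, ← Finset.mul_sum]
    rw [Finset.sum_const, Finset.card_univ, nsmul_eq_mul]
    have h1 : (Fintype.card G : ℝ) ^ M * ∑ x, X x ^ 2 ≤
        (Fintype.card G : ℝ) ^ M * (C * Fintype.card G) :=
      mul_le_mul_of_nonneg_left hC (by positivity)
    have h2 : (Fintype.card G : ℝ) * ∑ ω : Fin M → G, (∑ v, X (ω v)) ^ 2 ≤
        (Fintype.card G : ℝ) * (M * C * (Fintype.card G : ℝ) ^ M) :=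
      mul_le_mul_of_nonneg_left ih (by positivity)
    have e3 : ((M + 1 : ℕ) : ℝ) * C * (Fintype.card G : ℝ) ^ (M + 1) =
        (Fintype.card G : ℝ) ^ M * (C * Fintype.card G) +
          (Fintype.card G : ℝ) * (M * C * (Fintype.card G : ℝ) ^ M) := by
      push_cast
      ring
    rw [e3]
    exact add_le_add h1 h2

theorem goalBIN : G_BIN := by
  intro G _ _ M A
  classical
  have hn : (0 : ℝ) < Fintype.card G := by
    have : 0 < Fintype.card G := Fintype.card_pos
    exact_mod_cast this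
  set n : ℝ := (Fintype.card G : ℝ) with hnd
  rcases Nat.eq_zero_or_pos (M * A.card) with h0 | hpos
  · rw [h0]; simp
  have hpos' : (0 : ℝ) < (M : ℝ) * A.card := by exact_mod_cast hpos
  set X : G → ℝ := fun x => n * (if x ∈ A then 1 else 0) - A.card with hX
  have hAn : (A.card : ℝ) ≤ n := by
    rw [hnd]; exact_mod_cast Finset.card_le_univ A
  have hX0 : ∑ x, X x = 0 := by
    simp only [hX, Finset.sum_sub_distrib, ← Finset.mul_sum]
    simp [hnd]
  have hX2 : ∑ x, X x ^ 2 ≤ (A.card * n) * Fintype.card G := by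
    have e : ∀ x, X x ^ 2 = (n ^ 2 - 2 * n * A.card) * (if x ∈ A then 1 else 0) +
        (A.card : ℝ) ^ 2 := by
      intro x
      simp only [hX]
      split_ifs <;> ring
    simp only [e, Finset.sum_add_distrib, ← Finset.mul_sum]
    simp only [Finset.sum_boole, Finset.filter_mem_eq_inter, Finset.univ_inter, Finset.sum_const,
      Finset.card_univ, nsmul_eq_mul]
    rw [← hnd]
    have : 0 ≤ (A.card : ℝ) ^ 2 * n := by positivity
    nlinarith
  have hsum := secMom X hX0 _ hX2 M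
  rw [← hnd] at hsum
  set S := (univ.filter fun ω : Fin M → G =>
    2 * Fintype.card G * (univ.filter fun v => ω v ∈ A).card < M * A.card) with hS
  have hlow : ∀ ω ∈ S, ((M : ℝ) * A.card) ^ 2 / 4 ≤ (∑ v, X (ω v)) ^ 2 := by
    intro ω hω
    rw [hS, Finset.mem_filter] at hω
    have h1 : (2 * n * ((univ.filter fun v => ω v ∈ A).card : ℝ)) < (M : ℝ) * A.card := by
      rw [hnd]; exact_mod_cast hω.2
    have h2 : ∑ v, X (ω v) = n * ((univ.filter fun v => ω v ∈ A).card : ℝ) - M * A.card := by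
      simp only [hX, Finset.sum_sub_distrib, ← Finset.mul_sum, Finset.sum_boole,
        Finset.sum_const, Finset.card_univ, Fintype.card_fin, nsmul_eq_mul]
    rw [h2]
    nlinarith
  have h3 : (S.card : ℝ) * (((M : ℝ) * A.card) ^ 2 / 4) ≤ ∑ ω : Fin M → G, (∑ v, X (ω v)) ^ 2 := by
    calc (S.card : ℝ) * (((M : ℝ) * A.card) ^ 2 / 4)
        = ∑ ω ∈ S, ((M : ℝ) * A.card) ^ 2 / 4 := by rw [Finset.sum_const, nsmul_eq_mul]
      _ ≤ ∑ ω ∈ S, (∑ v, X (ω v)) ^ 2 := Finset.sum_le_sum hlow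
      _ ≤ _ := Finset.sum_le_sum_of_subset_of_nonneg (Finset.subset_univ _)
          (fun _ _ _ => sq_nonneg _)
  have h4 : (S.card : ℝ) * (M * A.card) ≤ 4 * n * n ^ M := by
    have h5 : ((S.card : ℝ) * (M * A.card)) * (M * A.card) ≤ (4 * n * n ^ M) * (M * A.card) := by
      nlinarith [h3, hsum]
    exact le_of_mul_le_mul_right h5 hpos'
  rw [hnd] at h4
  exact_mod_cast h4

end Pool.Agent.Helper35.MCP
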