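import Pool.Agent.Helper4.MCP.GoalsB

set_option autoImplicit false

namespace Pool.Agent.Helper35.MCP

open Pool.Agent.Helper4.MCP Pool.Agent.Helper26.MCE Pool.Agent.Helper87.MC Finset

section

variable {G : Type} [AddCommGroup G] [Fintype G] {D J : Finset G} {Λ : Type} [Fintype Λ]
  {e : Λ → G} {W : Λ → AddSubgroup G} {m : Λ → ℝ}

theorem sys_sum (h : Sys D J e W m) (hJ : J.Nonempty) : ∑ l, m l = 1 := by
  classical
  have h1 : ∀ l, ∑ x ∈ J, (if e l = x then m l else 0) = m l := by
    intro l
    rw [Finset.sum_ite_eq]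
    simp [h.mem l]
  have h2 : ∑ l, m l = ∑ x ∈ J, ∑ l, (if e l = x then m l else 0) := by
    rw [Finset.sum_comm]
    exact (Finset.sum_congr rfl fun l _ => h1 l).symm
  have h3 : ∑ x ∈ J, ∑ l, (if e l = x then m l else 0) = ∑ x ∈ J, 1 / (J.card : ℝ) := by
    refine Finset.sum_congr rfl fun x hx => ?_
    rw [← h.marg x hx]
  rw [h2, h3, Finset.sum_const, nsmul_eq_mul]
  have : (J.card : ℝ) ≠ 0 := by
    have := hJ.card_pos
    positivity
  field_simp

theorem card_W (h : Sys D J e W m) (l : Λ) : Nat.card (W l) ≤ D.card := by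
  classical
  rw [Nat.card_eq_fintype_card, ← Fintype.card_coe D]
  refine Fintype.card_le_of_injective
    (fun x : W l => (⟨e l + x.1, h.coset l x.1 x.2⟩ : D)) ?_
  intro x y hxy
  have := congrArg Subtype.val hxy
  simp only [add_right_inj] at this
  exact Subtype.ext this

theorem yy_bounds (h : Sys D J e W m) (M s : ℕ) (a₀ : ℝ) (hM : 1 ≤ M)
    (hMD : (M : ℝ) * D.card ≤ Real.exp (-a₀) * Fintype.card G) (a : Fin s → Λ)
    (I : Finset (Fin s)) (hI : I ≠ ∅) :
    a₀ ≤ yy ((M : ℝ) / Fintype.card G) W a I ∧
      yy ((M : ℝ) / Fintype.card G) W a I ≤ Real.log (Fintype.card G) := by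
  classical
  have hn : (0 : ℝ) < Fintype.card G := by
    have : 0 < Fintype.card G := Fintype.card_pos
    exact_mod_cast this
  have hM' : (1 : ℝ) ≤ M := by exact_mod_cast hM
  set K : AddSubgroup G := ⨅ i ∈ I, W (a i) with hK
  have hK1 : (1 : ℝ) ≤ Nat.card K := by
    have : 0 < Nat.card K := Nat.card_pos
    exact_mod_cast this
  have hKD : (Nat.card K : ℝ) ≤ D.card := by
    obtain ⟨i, hi⟩ := Finset.nonempty_iff_ne_empty.2 hI
    have h1 : K ≤ W (a i) := by
      rw [hK]; exact iInf₂_le i hi
    have h2 : Nat.card K ≤ Nat.card (W (a i)) := AddSubgroup.card_le_of_le h1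
    exact_mod_cast h2.trans (card_W h (a i))
  have hy : yy ((M : ℝ) / Fintype.card G) W a I =
      -Real.log ((M : ℝ) / Fintype.card G * Nat.card K) := by
    unfold yy
    rw [if_neg hI]
  have hpos : 0 < (M : ℝ) / Fintype.card G * Nat.card K := by positivity
  rw [hy]
  constructor
  · have h3 : (M : ℝ) / Fintype.card G * Nat.card K ≤ Real.exp (-a₀) := by
      rw [div_mul_eq_mul_div, div_le_iff₀ hn]
      calc (M : ℝ) * Nat.card K ≤ M * D.card := by
            apply mul_le_mul_of_nonneg_left hKD (by positivity)
        _ ≤ _ := hMD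
    have h4 := Real.log_le_log hpos h3
    rw [Real.log_exp] at h4
    linarith
  · have h3 : (1 : ℝ) / Fintype.card G ≤ (M : ℝ) / Fintype.card G * Nat.card K := by
      rw [div_mul_eq_mul_div]
      apply div_le_div_of_nonneg_right _ hn.le
      nlinarith
    have h4 := Real.log_le_log (by positivity) h3
    rw [one_div, Real.log_inv] at h4
    linarith

end

theorem goalZB : G_ZB := by
  intro G _ _ D J Λ _ e W m M s a₀ h hJ hM ha₀ hMD
  classical
  have hn1 : (1 : ℝ) ≤ Fintype.card G := by
    have : 0 < Fintype.card G := Fintype.card_pos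
    exact_mod_cast this
  have hlogn : 0 ≤ Real.log (Fintype.card G) := Real.log_nonneg hn1
  have hsum := sys_sum h hJ
  have hm0 := h.pos
  have hfac : ∀ I : Finset (Fin s), 0 ≤ Real.log (I.card.factorial : ℝ) ∧
      Real.log (I.card.factorial : ℝ) ≤ Real.log (s.factorial : ℝ) := by
    intro I
    have h1 : 1 ≤ I.card.factorial := Nat.succ_le_of_lt (Nat.factorial_pos _)
    have h2 : I.card ≤ s := by
      have := Finset.card_le_univ I
      simpa using this
    have h3 : I.card.factorial ≤ s.factorial := Nat.factorial_le h2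
    constructor
    · exact Real.log_nonneg (by exact_mod_cast h1)
    · exact Real.log_le_log (by exact_mod_cast Nat.factorial_pos _) (by exact_mod_cast h3)
  have hprod0 : ∀ a : Fin s → Λ, 0 ≤ ∏ i, m (a i) := fun a => Finset.prod_nonneg fun i _ => hm0 _
  have hprod1 : ∑ a : Fin s → Λ, ∏ i, m (a i) = 1 := by
    rw [← Fintype.sum_pow, hsum, one_pow]
  constructor
  · intro B hB
    set b : ℝ := ms m B with hb
    have hb0 : 0 ≤ b := Finset.sum_nonneg fun l _ => hm0 l
    have hb1 : b ≤ 1 := by
      rw [← hsum, hb]
      exact Finset.sum_le_sum_of_subset_of_nonneg (Finset.subset_univ _) fun l _ _ => hm0 l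
    have hnone : ∑ a : Fin s → Λ, (∏ i, m (a i)) *
        (if (univ.filter fun i => a i ∈ B) = ∅ then 1 else 0) = (1 - b) ^ s := by
      have e1 : (1 - b) = ∑ l, (if l ∈ B then 0 else m l) := by
        rw [← hsum, hb, sub_eq_iff_eq_add, ms]
        have e2 : ∑ l ∈ B, m l = ∑ l, (if l ∈ B then m l else 0) := by
          simp [Finset.sum_ite_mem]
        rw [e2, ← Finset.sum_add_distrib]
        refine Finset.sum_congr rfl fun l _ => ?_
        split_ifs <;> simp
      rw [e1, Fintype.sum_pow]
      refine Finset.sum_congr rfl fun a _ => ?_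
      by_cases hempty : (univ.filter fun i => a i ∈ B) = ∅
      · rw [if_pos hempty, mul_one]
        refine Finset.prod_congr rfl fun i _ => ?_
        have : a i ∉ B := by
          intro hi
          have : i ∈ (univ.filter fun i => a i ∈ B) := by simp [hi]
          rw [hempty] at this
          simp at this
        rw [if_neg this]
      · rw [if_neg hempty, mul_zero]
        obtain ⟨i, hi⟩ := Finset.nonempty_iff_ne_empty.2 hempty
        rw [Finset.mem_filter] at hi
        symm
        apply Finset.prod_eq_zero (Finset.mem_univ i)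
        rw [if_pos hi.2]
    have hlow : a₀ * (1 - (1 - b) ^ s) ≤ ZZ ((M : ℝ) / Fintype.card G) W m s B := by
      have e3 : a₀ * (1 - (1 - b) ^ s) = ∑ a : Fin s → Λ, (∏ i, m (a i)) *
          (a₀ * (1 - (if (univ.filter fun i => a i ∈ B) = ∅ then 1 else 0))) := by
        have e4 : ∀ a : Fin s → Λ, (∏ i, m (a i)) *
          (a₀ * (1 - (if (univ.filter fun i => a i ∈ B) = ∅ then 1 else 0))) =
            a₀ * (∏ i, m (a i)) - a₀ * ((∏ i, m (a i)) *
              (if (univ.filter fun i => a i ∈ B) = ∅ then 1 else 0)) := by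
          intro a; ring
        simp only [e4, Finset.sum_sub_distrib, ← Finset.mul_sum, hprod1, hnone]
        ring
      rw [e3]
      unfold ZZ
      refine Finset.sum_le_sum fun a _ => ?_
      apply mul_le_mul_of_nonneg_left _ (hprod0 a)
      by_cases hempty : (univ.filter fun i => a i ∈ B) = ∅
      · rw [if_pos hempty]
        unfold zz yy
        rw [if_pos hempty, hempty]
        simp
      · rw [if_neg hempty]
        unfold zz
        have := (yy_bounds h M s a₀ hM hMD a _ hempty).1
        have h5 := (hfac (univ.filter fun i => a i ∈ B)).1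
        linarith
    refine le_trans ?_ hlow
    have hx0 : 0 ≤ (s : ℝ) * b := by positivity
    have h6 : (1 - b) ^ s ≤ Real.exp (-(s * b)) := by
      have h7 : 1 - b ≤ Real.exp (-b) := by
        have := Real.add_one_le_exp (-b)
        linarith
      calc (1 - b) ^ s ≤ (Real.exp (-b)) ^ s := pow_le_pow_left₀ (by linarith) h7 s
        _ = Real.exp (-(s * b)) := by
          rw [← Real.exp_nat_mul]
          congr 1
          ring
    have h8 : Real.exp (-(s * b)) ≤ 1 - (s * b) / 2 := by
      have h9 : Real.exp (-(s * b)) ≤ 1 / (1 + s * b) := by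
        rw [Real.exp_neg, ← one_div]
        apply one_div_le_one_div_of_le (by positivity)
        have := Real.add_one_le_exp ((s : ℝ) * b)
        linarith
      refine h9.trans ?_
      rw [div_le_iff₀ (by positivity)]
      nlinarith
    nlinarith
  · unfold ZZ
    have h10 : ∀ a : Fin s → Λ, (∏ i, m (a i)) *
        zz ((M : ℝ) / Fintype.card G) W a (univ.filter fun i => a i ∈ (univ : Finset Λ)) ≤
          (∏ i, m (a i)) * (Real.log (Fintype.card G) + Real.log (s.factorial : ℝ)) := by
      intro a
      apply mul_le_mul_of_nonneg_left _ (hprod0 a)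
      set I := (univ.filter fun i => a i ∈ (univ : Finset Λ)) with hI
      have h11 : yy ((M : ℝ) / Fintype.card G) W a I ≤ Real.log (Fintype.card G) := by
        by_cases hempty : I = ∅
        · unfold yy
          rw [if_pos hempty]
          exact hlogn
        · exact (yy_bounds h M s a₀ hM hMD a _ hempty).2
      unfold zz
      linarith [(hfac I).2]
    refine (Finset.sum_le_sum fun a _ => h10 a).trans ?_
    rw [← Finset.sum_mul, hprod1, one_mul]

end Pool.Agent.Helper35.MCP
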